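import Pool.Agent.Helper18_Helly.Final

/-!
# Squad SHA: the least sigma-Helly number of an aligned sum up to 4 √σ (MP_65fb70_co)

`IsValue s n₁ n₂ n` (Helper18_Helly/Defs.lean): there are aligned spaces with `s`-Helly numbers
`n₁, n₂` whose aligned sum has `s`-Helly number `n`.

THEOREM. For `s ≥ 1` and `n₁, n₂ ∈ ℕ ∪ {∞}`, `n₁, n₂ ≥ s`, the least value `v` exists, is finite and
`|v - L| ≤ 4 √s` where `L = s (1 + θ)`, `θ = (1 - s/n₁)(1 - s/n₂) / (1 - s²/(n₁ n₂))`.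
-/

set_option autoImplicit false

namespace Pool.Agent.SHA

open Pool.Agent.Helper18_Helly

/-- `s / n`, read as `0` if `n = ∞`. -/
noncomputable def ratio (s : ℕ) (n : ℕ∞) : ℝ := if n = ⊤ then 0 else (s : ℝ) / (n.toNat : ℝ)

/-- `(1 - s/n₁)(1 - s/n₂) / (1 - s²/(n₁ n₂))`, read as `0` if `n₁ = n₂ = s`. -/
noncomputable def theta (s : ℕ) (n₁ n₂ : ℕ∞) : ℝ :=
  (1 - ratio s n₁) * (1 - ratio s n₂) / (1 - ratio s n₁ * ratio s n₂)

/-- The main term `s (1 + θ)`. -/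
noncomputable def lead (s : ℕ) (n₁ n₂ : ℕ∞) : ℝ := s * (1 + theta s n₁ n₂)

/-- `(2 - p - q) / (1 - p q)`. -/
noncomputable def fr (p q : ℝ) : ℝ := (2 - p - q) / (1 - p * q)

theorem ratio_top (s : ℕ) : ratio s ⊤ = 0 := if_pos rfl

theorem ratio_coe (s n : ℕ) : ratio s (n : ℕ∞) = (s : ℝ) / (n : ℝ) := by
  rw [ratio, if_neg (ENat.natCast_ne_top n)]
  simp

theorem theta_coe {s m n : ℕ} (hs : 1 ≤ s) (hm : s ≤ m) (hn : s ≤ n) :
    theta s (m : ℕ∞) (n : ℕ∞) = (((m : ℝ) - s) * ((n : ℝ) - s)) / ((m : ℝ) * n - (s : ℝ) ^ 2) := by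
  have h1 : (0 : ℝ) < m := by exact_mod_cast (by omega : 0 < m)
  have h2 : (0 : ℝ) < n := by exact_mod_cast (by omega : 0 < n)
  rw [theta, ratio_coe, ratio_coe]
  have e1 : (1 - (s : ℝ) / m) * (1 - (s : ℝ) / n) = (((m : ℝ) - s) * ((n : ℝ) - s)) / (m * n) := by
    field_simp
  have e2 : (1 - (s : ℝ) / m * ((s : ℝ) / n)) = ((m : ℝ) * n - (s : ℝ) ^ 2) / (m * n) := by
    field_simp
  rw [e1, e2, div_div_div_cancel_right₀ (mul_pos h1 h2).ne']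

theorem theta_comm (s : ℕ) (n₁ n₂ : ℕ∞) : theta s n₁ n₂ = theta s n₂ n₁ := by
  rw [theta, theta, mul_comm (1 - ratio s n₁), mul_comm (ratio s n₁)]

theorem lead_comm (s : ℕ) (n₁ n₂ : ℕ∞) : lead s n₁ n₂ = lead s n₂ n₁ := by
  rw [lead, lead, theta_comm]

end Pool.Agent.SHA
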