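import Pool.Agent.SHA.Defs

/-!
# Statements of the squad SHA (MP_65fb70_co), with complete proofs in the docstrings

Deliver `Pool/Agent/HelperNN_SHA/X.lean`, `import Pool.Agent.SHA.Stmts`,
`namespace Pool.Agent.SHA.HNN`, `theorem x (hypotheses = the Stmts in uses) : XStmt`
(universe polymorphic statements: `XStmt.{u}`).
-/

set_option autoImplicit false

namespace Pool.Agent.SHA

open Pool.Agent.Helper18_Helly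

universe u

/-! ## Part 1: rounding -/

open Classical in
/-- **LPR** (100 lines). Few fractional coordinates.

PROOF. Strong induction on the number of fractional coordinates `G = {f ∈ F : 0 < x f < 1}`.
If `|G| ≤ |Q|` take `z = x`. Otherwise the linear map `(G → ℝ) → (Q → ℝ)`,
`v ↦ (∑_{f ∈ G ∩ O} v f)_{O ∈ Q}` has a nonzero kernel vector `v` (dimension, for instance
`LinearMap.ker_ne_bot_of_finrank_lt`, or `Module.exists_nontrivial_relation_of_finrank_lt_card`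
applied to the vectors `(1_{f ∈ O})_{O ∈ Q}`); extend it by `0` outside `G`, and replace it by `-v`
if `∑ v < 0`. For `f ∈ G` with `v f ≠ 0` let `t_f = (1 - x f) / v f` if `v f > 0` and
`t_f = x f / (- v f)` if `v f < 0`, so `t_f > 0`; let `t = min t_f = t_{f*}`. Then `x + t v` is in
`[0,1]` on `F`, has the same loads, a sum `≥ ∑ x`, and its fractional coordinates are in
`G \ {f*}`. Apply the induction hypothesis to it. -/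
def LPRStmt : Prop :=
  ∀ (U : Type u) (F : Finset U) (Q : Finset (Set U)) (x : U → ℝ),
    (∀ f ∈ F, 0 ≤ x f ∧ x f ≤ 1) →
    ∃ z : U → ℝ, (∀ f ∈ F, 0 ≤ z f ∧ z f ≤ 1) ∧
      (∀ O ∈ Q, ∑ f ∈ F.filter (fun f => f ∈ O), z f = ∑ f ∈ F.filter (fun f => f ∈ O), x f) ∧
      ∑ f ∈ F, x f ≤ ∑ f ∈ F, z f ∧
      (F.filter (fun f => 0 < z f ∧ z f < 1)).card ≤ Q.card

open Classical in
/-- **RND** (60 lines). Rounding one coordinate after the other (an expectation made explicit; no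
sign condition on `c`, `E`).

PROOF. Induction on `G`, for all `x`, `c`. `G = ∅`: take `A = ∅`. Step `G = insert a G'`: put
`E_O = E` if `a ∈ O` and `E_O = 1` otherwise, `P_O = ∏_{f ∈ G' ∩ O} (1 + x f (E - 1))`. The left hand
side is `x a + ∑_{G'} x - ∑_O c_O (1 + x a (E_O - 1)) P_O
 = (1 - x a) [∑_{G'} x - ∑_O c_O P_O] + x a [1 + ∑_{G'} x - ∑_O c_O E_O P_O]`, hence at most the
larger of the two brackets. First bracket: induction hypothesis with `c`, `A ⊆ G'`. Second bracket: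
induction hypothesis with `c' O = c O * E_O` gives `A' ⊆ G'`, and `A = insert a A'` works because
`E ^ |A ∩ O| = E_O E ^ |A' ∩ O|`. -/
def RNDStmt : Prop :=
  ∀ (U : Type u) (G : Finset U) (Q : Finset (Set U)) (x : U → ℝ) (c : Set U → ℝ) (E : ℝ),
    (∀ f ∈ G, 0 ≤ x f ∧ x f ≤ 1) →
    ∃ A ⊆ G, ∑ f ∈ G, x f - ∑ O ∈ Q, c O * ∏ f ∈ G.filter (fun f => f ∈ O), (1 + x f * (E - 1)) ≤
      (A.card : ℝ) - ∑ O ∈ Q, c O * E ^ (A.filter (fun f => f ∈ O)).card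

open Classical in
/-- **REM** (30 lines). Deleting the excess.

PROOF. For `O ∈ Q` choose `R_O ⊆ T ∩ O` with `|R_O| = |T ∩ O| - q` (truncated subtraction) and take
`T' = T \ ⋃ R_O`: then `T' ∩ O ⊆ (T ∩ O) \ R_O` has at most `q` points and
`|T| ≤ |T'| + ∑ |R_O|`. -/
def REMStmt : Prop :=
  ∀ (U : Type u) (T : Finset U) (Q : Finset (Set U)) (q : ℕ),
    ∃ T' ⊆ T, (∀ O ∈ Q, (T'.filter (fun f => f ∈ O)).card ≤ q) ∧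
      T.card ≤ T'.card + ∑ O ∈ Q, ((T.filter (fun f => f ∈ O)).card - q)

open Classical in
/-- **LD1** (50 lines, uses LPR). Rounding down.

PROOF. Take `z` from LPR and `T = {f ∈ F : z f = 1}`. Then `|T ∩ O| ≤ ∑_{F ∩ O} z = ∑_{F ∩ O} x ≤ q`
and `∑_F x ≤ ∑_F z ≤ |T| + #{f : 0 < z f < 1} ≤ |T| + |Q|`. -/
def LD1Stmt : Prop :=
  ∀ (U : Type u) (F : Finset U) (Q : Finset (Set U)) (x : U → ℝ) (q : ℕ),
    (∀ f ∈ F, 0 ≤ x f ∧ x f ≤ 1) →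
    (∀ O ∈ Q, ∑ f ∈ F.filter (fun f => f ∈ O), x f ≤ q) →
    ∃ T ⊆ F, (∀ O ∈ Q, (T.filter (fun f => f ∈ O)).card ≤ q) ∧
      ∑ f ∈ F, x f - Q.card ≤ (T.card : ℝ)

open Classical in
/-- **LD2** (130 lines, uses LPR, RND, REM). Randomised rounding.

PROOF. Put `k = |Q| = y^3`, `lam = 1 / y ∈ (0, 1]`, `E = exp lam`. Take `z` from LPR,
`B = {f ∈ F : z f = 1}`, `G = {f ∈ F : 0 < z f < 1}`, so `|G| ≤ k`, and for `O ∈ Q`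
`load_O = |B ∩ O| + ∑_{G ∩ O} z ≤ q - 2 y^2`. Apply RND to `G`, `z`, `E` and
`c_O = (y / e) exp (lam (|B ∩ O| - q))`, getting `A ⊆ G`; put `T0 = B ∪ A`.
(a) Since `e * v ≤ exp v` for all real `v` (`Real.add_one_le_exp (v - 1)`), the excess satisfies
`max (t, 0) ≤ (y / e) exp (lam t)`, `t = |T0 ∩ O| - q`; so
`∑_O (|T0 ∩ O| - q)_+ ≤ ∑_O c_O E ^ |A ∩ O|`.
(b) `1 + z (E - 1) ≤ exp (z (E - 1)) ≤ exp (z (lam + lam^2))` since `E - 1 ≤ lam + lam^2` for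
`0 ≤ lam ≤ 1` (`Real.abs_exp_sub_one_sub_id_le`), so
`c_O ∏_{G ∩ O} (1 + z (E - 1)) ≤ (y / e) exp (lam (|B ∩ O| - q) + (lam + lam^2) ∑_{G ∩ O} z)
 ≤ (y / e) exp (lam (load_O - q) + lam^2 |G|) ≤ (y / e) exp (- 2 y + y^3 / y^2) = (y / e) exp (- y)`;
the sum over `O ∈ Q` is at most `y^3 (y / e) exp (- y) = y^4 exp (- y - 1)`.
(c) REM applied to `T0` gives `T ⊆ T0` with `|T ∩ O| ≤ q` and
`|T| ≥ |T0| - ∑_O (|T0 ∩ O| - q)_+ ≥ |B| + |A| - ∑_O c_O E ^ |A ∩ O|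
 ≥ |B| + ∑_G z - y^4 exp (- y - 1) = ∑_F z - y^4 exp (- y - 1)`. -/
def LD2Stmt : Prop :=
  ∀ (U : Type u) (F : Finset U) (Q : Finset (Set U)) (x : U → ℝ) (q : ℕ) (y : ℝ),
    1 ≤ y → y ^ 3 = Q.card →
    (∀ f ∈ F, 0 ≤ x f ∧ x f ≤ 1) →
    (∀ O ∈ Q, ∑ f ∈ F.filter (fun f => f ∈ O), x f ≤ q - 2 * y ^ 2) →
    ∃ T ⊆ F, (∀ O ∈ Q, (T.filter (fun f => f ∈ O)).card ≤ q) ∧
      ∑ f ∈ F, x f - y ^ 4 * Real.exp (-y - 1) ≤ (T.card : ℝ)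

/-! ## Part 2: the lower bound -/

open Classical in
/-- **PTX** (90 lines). The fractional solution.

PROOF. Write `N₁ = |S₁|`, `N₂ = |S₂|`, `D = N₁ N₂ - s² > 0`, `p₁ = s (N₂ - s) / D ≥ 0`,
`p₂ = s (N₁ - s) / D ≥ 0`. With `theta_coe`:
`p₁ s + p₂ N₂ = s`, `p₁ N₁ + p₂ s = s`, `p₁ N₁ + p₂ N₂ = lead`, `p₁ + p₂ = 1 - θ ≤ 1` (`θ ≥ 0`).
Take `x f = c (p₁ [f ∈ S₁] + p₂ [f ∈ S₂])`. Then `0 ≤ x f ≤ c (p₁ + p₂) ≤ 1`. The load of `O` is at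
most `c (p₁ |S₁ ∩ O| + p₂ |S₂ ∩ O|)`, which is `≤ c (p₁ s + p₂ N₂) = c s` or
`≤ c (p₁ N₁ + p₂ s) = c s`. The total is `c (p₁ |S₁ \ W| + p₂ |S₂ \ W|) ≥
c (p₁ (N₁ - |W|) + p₂ (N₂ - |W|)) = c (lead - (1 - θ) |W|)`. -/
def PTXStmt : Prop :=
  ∀ (U : Type u) (s : ℕ) (S₁ S₂ W : Finset U) (Q : Finset (Set U)) (c : ℝ),
    1 ≤ s → s ≤ S₁.card → s ≤ S₂.card → s ^ 2 < S₁.card * S₂.card → 0 ≤ c → c ≤ 1 →
    (∀ O ∈ Q, (S₁.filter (fun f => f ∈ O)).card ≤ s ∨ (S₂.filter (fun f => f ∈ O)).card ≤ s) →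
    ∃ x : U → ℝ, (∀ f, 0 ≤ x f ∧ x f ≤ 1) ∧
      (∀ O ∈ Q, ∑ f ∈ ((S₁ ∪ S₂) \ W).filter (fun f => f ∈ O), x f ≤ c * s) ∧
      c * (lead s (S₁.card : ℕ∞) (S₂.card : ℕ∞) -
          (1 - theta s (S₁.card : ℕ∞) (S₂.card : ℕ∞)) * W.card) ≤
        ∑ f ∈ (S₁ ∪ S₂) \ W, x f

open Classical in
/-- **TRV** (50 lines). The trivial test set.

PROOF. `W` from `Priv.exists_finset` (Helper18_Helly/Lower.lean): `W ⊆ X`, `|W| = |Q|`, every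
`O ∈ Q` contains exactly one point of `W`. If `X \ W` has at least `s - 1` points
(`((s - 1 : ℕ) : ℕ∞) ≤ (X \ W).encard`, `exists_finset_of_le`), take `T` = `W` and `s - 1` of them
(first alternative). Otherwise `X \ W` has at most `s - 2` points and every `T ⊆ X` has
`|T ∩ O| ≤ |W ∩ O| + |X \ W| ≤ s`. -/
def TRVStmt : Prop :=
  ∀ (U : Type u) (X : Set U) (s : ℕ) (Q : Finset (Set U)), 1 ≤ s → Priv X Q →
    (∃ T : Finset U, (T : Set U) ⊆ X ∧ T.card = Q.card + (s - 1) ∧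
      ∀ O ∈ Q, (T.filter (fun f => f ∈ O)).card ≤ s) ∨
    (∀ T : Finset U, (T : Set U) ⊆ X → ∀ O ∈ Q, (T.filter (fun f => f ∈ O)).card ≤ s)

open Classical in
/-- **LO1** (60 lines, uses LD1, PTX). The bound from rounding down.

PROOF. `W` from `Priv.exists_finset`, `k = |W| = |Q|`. PTX with `c = (s - 1) / s`: loads
`≤ c s = s - 1`. LD1 with `q = s - 1` on `F = (S₁ ∪ S₂) \ W` gives `T' ⊆ F`, `|T' ∩ O| ≤ s - 1`,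
`|T'| ≥ c (L - (1 - θ) k) - k`. `T = T' ∪ W` (disjoint): `|T ∩ O| ≤ s` as `|W ∩ O| = 1`, and
`|T| ≥ (1 - 1/s)(L - (1 - θ) k) ≥ L - (1 - θ) k - L / s = L - (1 - θ) k - (1 + θ)` (here
`(1 - θ) k / s ≥ 0`; `θ ≤ 1` is clear from `theta_coe`). -/
def LO1Stmt : Prop :=
  ∀ (U : Type u) (X : Set U) (s : ℕ) (S₁ S₂ : Finset U) (Q : Finset (Set U)),
    1 ≤ s → s ≤ S₁.card → s ≤ S₂.card → s ^ 2 < S₁.card * S₂.card →
    (S₁ : Set U) ⊆ X → (S₂ : Set U) ⊆ X → Priv X Q →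
    (∀ O ∈ Q, (S₁.filter (fun f => f ∈ O)).card ≤ s ∨ (S₂.filter (fun f => f ∈ O)).card ≤ s) →
    ∃ T : Finset U, (T : Set U) ⊆ X ∧ (∀ O ∈ Q, (T.filter (fun f => f ∈ O)).card ≤ s) ∧
      lead s (S₁.card : ℕ∞) (S₂.card : ℕ∞) - (1 + theta s (S₁.card : ℕ∞) (S₂.card : ℕ∞)) -
        (1 - theta s (S₁.card : ℕ∞) (S₂.card : ℕ∞)) * Q.card ≤ (T.card : ℝ)

open Classical in
/-- **LO2** (70 lines, uses LD2, PTX). The bound from randomised rounding.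

PROOF. As LO1 with `c = (s - 1 - 2 y²) / s ∈ [0, 1]`: loads `≤ c s = (s - 1) - 2 y²`. LD2 with
`q = s - 1` gives `T' ⊆ F` with `|T'| ≥ c (L - (1 - θ) k) - R`, `R = y⁴ exp (- y - 1)`. `T = T' ∪ W`
has `|T| ≥ k + L - (1 - θ) k - R - (1 + 2 y²)(L - (1 - θ) k) / s ≥
L + θ k - R - (1 + 2 y²)(1 + θ)` since `L / s = 1 + θ` and `(1 - θ) k ≥ 0`. -/
def LO2Stmt : Prop :=
  ∀ (U : Type u) (X : Set U) (s : ℕ) (S₁ S₂ : Finset U) (Q : Finset (Set U)) (y : ℝ),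
    1 ≤ s → s ≤ S₁.card → s ≤ S₂.card → s ^ 2 < S₁.card * S₂.card →
    (S₁ : Set U) ⊆ X → (S₂ : Set U) ⊆ X → Priv X Q →
    (∀ O ∈ Q, (S₁.filter (fun f => f ∈ O)).card ≤ s ∨ (S₂.filter (fun f => f ∈ O)).card ≤ s) →
    1 ≤ y → y ^ 3 = Q.card → 2 * y ^ 2 ≤ s - 1 →
    ∃ T : Finset U, (T : Set U) ⊆ X ∧ (∀ O ∈ Q, (T.filter (fun f => f ∈ O)).card ≤ s) ∧
      lead s (S₁.card : ℕ∞) (S₂.card : ℕ∞) + theta s (S₁.card : ℕ∞) (S₂.card : ℕ∞) * Q.card -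
        (1 + theta s (S₁.card : ℕ∞) (S₂.card : ℕ∞)) * (1 + 2 * y ^ 2) -
        y ^ 4 * Real.exp (-y - 1) ≤ (T.card : ℝ)

/-- **NM1** (25 lines).

PROOF. `e u ≤ exp u` with `u = y / 4` gives `(e y / 4)^4 ≤ exp y`, so
`y⁴ exp (- y - 1) ≤ 256 exp (- 5)`, and `exp 1 > 2.7182818283` (`Real.exp_one_gt_d9`) gives
`exp 5 > 148.4`, `256 / 148.4 < 1.73`. -/
def NM1Stmt : Prop := ∀ y : ℝ, 0 ≤ y → y ^ 4 * Real.exp (-y - 1) ≤ 1.73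

/-- **NM2** (60 lines).

PROOF. First claim: `(2 y²)³ = 8 y⁶ ≤ 8 s² ≤ (s - 1)³` for `s ≥ 34`.
Second claim: from `k ≥ 23`, `y ≥ 2.84` (else `y³ < 22.91`), so `k - 1 - 2 y² = y³ - 1 - 2 y² > 0`
and the left side, `1 + 2 y² + 1.73 - θ (k - 1 - 2 y²)`, is at most
`Q - P / s`, `Q = 2 y² + 2.73`, `P = (y³ - 1)(y³ - 1 - 2 y²) > 0`. AM-GM: for `r = √s > 0`,
`4 r + P / r² = 2 r + 2 r + P / r²` and `(2 r + 2 r + P / r²)³ ≥ 27 · 4 P = 108 P`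
(for instance: with `u = 2 r`, `v = P / r²`, `(2 u + v)³ - 27 u² v = (v - u)² (8 u + v) ≥ 0`).
So it is enough that `Q³ ≤ 108 P` for `y ≥ 2.84`: polynomial inequality in `y`, at `y = 2.84`
`Q³ < 6711`, `108 P > 13600`, and `108 P - Q³ = 100 y⁶ - 216 y⁵ - ...` is increasing (write
`y = 2.84 + t` and check that all coefficients in `t` are nonnegative). -/
def NM2Stmt : Prop :=
  (∀ (s : ℕ) (y : ℝ), 34 ≤ s → 0 ≤ y → y ^ 3 ≤ s → 2 * y ^ 2 ≤ s - 1) ∧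
  (∀ (s k : ℕ) (y θ : ℝ), 34 ≤ s → 23 ≤ k → 0 ≤ y → y ^ 3 = k → ((k : ℝ) - 1) / s ≤ θ →
    (1 + θ) * (1 + 2 * y ^ 2) - θ * k + 1.73 ≤ 4 * √(s : ℝ))

/-- **BAS** (50 lines).

PROOF. `r_i = ratio s n_i ∈ [0, 1]`. If `r₁ r₂ = 1` then `r₁ = r₂ = 1` and `theta = 0 / 0 = 0`.
Otherwise the denominator is positive and `(1 - r₁)(1 - r₂) ≤ (1 - r₁)(1 - r₁ r₂)`, so
`0 ≤ θ ≤ 1 - r₁`, likewise `θ ≤ 1 - r₂` (`theta_comm`). If `n₁ = N` is finite,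
`lead ≤ s (2 - s / N) ≤ N` because `(N - s)² ≥ 0`. -/
def BASStmt : Prop :=
  ∀ (s : ℕ) (n₁ n₂ : ℕ∞), 1 ≤ s → (s : ℕ∞) ≤ n₁ → (s : ℕ∞) ≤ n₂ →
    0 ≤ theta s n₁ n₂ ∧ theta s n₁ n₂ ≤ 1 ∧
    (∀ N : ℕ, n₁ = N → lead s n₁ n₂ ≤ N) ∧ (∀ N : ℕ, n₂ = N → lead s n₁ n₂ ≤ N)

open Classical in
/-- **LOC** (90 lines, uses LO1, LO2, TRV, NM1, NM2, BAS). The lower bound for `s ≥ 34`.

PROOF. Write `L`, `θ` for `lead`, `theta` of `(|S₁|, |S₂|)`, `k = |Q|`. `0 ≤ θ ≤ 1` and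
`L ≤ |S₁|` by BAS.
(0) If `|S₁| |S₂| ≤ s²`, that is `|S₁| = |S₂| = s`: `T = S₁` (`|T ∩ O| ≤ |T| = s`, `L ≤ |S₁|`).
So let `s² < |S₁| |S₂|`.
(1) TRV. Second alternative: `T = S₁`. First alternative: `|T| = k + s - 1`, fine if
`L - 4 √s ≤ k + s - 1`; so let `k + s - 1 < L - 4 √s`, that is `k - 1 < s θ - 4 √s`; in
particular `(k - 1) / s ≤ θ` and `k ≤ s`.
(2) `k ≤ 22`: if `k = 0` take `T = S₁`; if `1 ≤ k ≤ 22`, LO1 loses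
`(1 + θ) + (1 - θ) k ≤ 1 + k ≤ 23 < 4 √34 ≤ 4 √s` (`23² = 529 < 544 = 16 · 34`).
(3) `k ≥ 23`: let `y ≥ 1` with `y³ = k` (`y = k ^ (1/3 : ℝ)`), `y³ ≤ s`, so `2 y² ≤ s - 1` by NM2.
LO2 loses `(1 + θ)(1 + 2 y²) - θ k + y⁴ exp (- y - 1) ≤ 4 √s` by NM1, NM2. -/
def LOCStmt : Prop :=
  ∀ (U : Type u) (X : Set U) (s : ℕ) (S₁ S₂ : Finset U) (Q : Finset (Set U)),
    34 ≤ s → s ≤ S₁.card → s ≤ S₂.card → (S₁ : Set U) ⊆ X → (S₂ : Set U) ⊆ X → Priv X Q →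
    (∀ O ∈ Q, (S₁.filter (fun f => f ∈ O)).card ≤ s ∨ (S₂.filter (fun f => f ∈ O)).card ≤ s) →
    ∃ T : Finset U, (T : Set U) ⊆ X ∧ (∀ O ∈ Q, (T.filter (fun f => f ∈ O)).card ≤ s) ∧
      lead s (S₁.card : ℕ∞) (S₂.card : ℕ∞) - 4 * √(s : ℝ) ≤ (T.card : ℝ)

/-- **LIM** (60 lines).

PROOF. If `n_i` is finite take `N_i = n_i`. If one or both are `⊤`, let the corresponding `N_i = N`
tend to infinity: `lead s N₁ N₂ → lead s n₁ n₂` since `ratio s N = s / N → 0 = ratio s ⊤` and the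
denominator `1 - r₁ r₂` tends to `1 ≠ 0`; conclude with `le_of_tendsto'` / `ge_of_tendsto`. -/
def LIMStmt : Prop :=
  ∀ (s : ℕ) (n₁ n₂ : ℕ∞) (c : ℝ), 1 ≤ s → (s : ℕ∞) ≤ n₁ → (s : ℕ∞) ≤ n₂ →
    (∀ N₁ N₂ : ℕ, s ≤ N₁ → s ≤ N₂ → (N₁ : ℕ∞) ≤ n₁ → (N₂ : ℕ∞) ≤ n₂ →
      lead s (N₁ : ℕ∞) (N₂ : ℕ∞) ≤ c) →
    lead s n₁ n₂ ≤ c

/-- **LOA** (100 lines, uses LOC, LIM, BAS). The lower bound.

PROOF. Let the value `v` come from `X₁, X₂, C₁, C₂`. `s ≤ 33`: by `lower_bound`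
(Helper18_Helly/Final.lean) `v ≥ min (min n₁ n₂) (s + ⌈2 √s⌉ - 1)`. If `v ≥ n₁ = N` or
`v ≥ n₂ = N` (finite since `v` is) use `lead ≤ N` from BAS. Otherwise
`v ≥ s + ⌈2 √s⌉ - 1 ≥ s + 2 √s - 1 ≥ 2 s - 4 √s ≥ lead - 4 √s`, because with `r = √s`,
`r ≤ √33 < 5.7446` gives `r² - 6 r + 1 ≤ 0`.
`s ≥ 34`: by LIM it is enough to treat naturals `N₁, N₂ ≥ s` with `N_i ≤ n_i`. `exists_finset_core`
(Helper18_Helly/LowerMain.lean) gives `S₁ ⊆ X₁`, `S₂ ⊆ X₂` with `|S_i| = N_i` and empty cores. Let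
`N = ⌈lead s N₁ N₂ - 4 √s⌉₊`. By `le_helly_sum`, with for each `Q` the set `T` of LOC
(`X = X₁ ∪ X₂`), shrunk to a subset with exactly `N` points (`|T| ≥ N` by `Nat.ceil_le`), we get
`N ≤ v`; hence `lead s N₁ N₂ - 4 √s ≤ N ≤ v`. -/
def LOAStmt : Prop :=
  ∀ (s : ℕ) (n₁ n₂ : ℕ∞) (v : ℕ), 1 ≤ s → (s : ℕ∞) ≤ n₁ → (s : ℕ∞) ≤ n₂ →
    IsValue.{u} s n₁ n₂ (v : ℕ∞) → lead s n₁ n₂ - 4 * √(s : ℝ) ≤ v

/-! ## Part 3: the upper bound -/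

/-- **DES** (90 lines). The cyclic design.

PROOF. `N = ⊤`: `k = 0`, `I 0 = range q`, `I j = ∅` for `j > 0`. `N = M` finite, `q < M`: let
`k = a q / M` (floor), so `k M ≤ a q < (k + 1) M` and `k < a` as `a q < a M`. Let `t ∈ I j` iff
`t < M` and (`(j = 0 ∧ t < q)` or `∃ r < k, (t + r M) / q = j`) (filter of `range M`).
For `r < k`, `t < M` we have `t + r M < k M ≤ a q`, so `(t + r M) / q < a`; for fixed `t` the `k`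
numbers `(t + r M) / q` are distinct because `M > q`: so `t` lies in at least `k` of the `I j`,
`j < a`. The map `t ↦ t + r M` (with a chosen `r`) embeds `I j` (for `j > 0`) into the block
`[j q, (j + 1) q)` (injective: `t = (t + r M) % M`), so `|I j| ≤ q`. For `j = 0`:
`(t + r M) / q = 0` means `t + r M < q < M`, so `r = 0` and `t < q`: `I 0 = range q`. -/
def DESStmt : Prop :=
  ∀ (q a : ℕ) (N : ℕ∞), 1 ≤ q → 1 ≤ a → (q : ℕ∞) < N →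
    ∃ (k : ℕ) (I : ℕ → Finset ℕ), k < a ∧ (∀ j, j < a → ∀ t ∈ I j, (t : ℕ∞) < N) ∧
      (∀ j, j < a → (I j).card ≤ q) ∧ (I 0).card = q ∧
      (∀ t : ℕ, (t : ℕ∞) < N → k ≤ ((Finset.range a).filter (fun j => t ∈ I j)).card) ∧
      (∀ M : ℕ, N = M → a * q ≤ (k + 1) * M)

/-- **CO1** (110 lines). One side of the construction: private points `P`, sets
`D p = {p} ∪ J p ∪ B`, convex sets: `C ⊆ X` such that every `p ∈ P` is in `C` or `C ∩ D p = ∅`.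

PROOF. Aligned: `avoid_aligned`. By `core_avoid_iff` (its hypothesis: `Z p = X \ D p ⊆ X`, `p ∉ Z p`
and `p' ∈ Z p` for `p' ≠ p` in `P`, by disjointness) the core of `T ⊆ X` is empty iff
`|T ∩ D p| ≤ s` for all `p ∈ P` (`T \ (X \ D p) = T ∩ D p`).
`≥`: all subsets of `P ∪ A` have an empty core, since `(P ∪ A) ∩ D p = {p} ∪ J p` has at most `s`
points; use `le_helly_of_infinite` and `exists_subset_encard`, `(P ∪ A).encard = A.encard + a`.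
`≤`: `helly_le`; if `A` is infinite nothing to prove; let `T ⊆ X` be finite with an empty core.
Since `B ⊆ D p₀`: `T \ D p₀ ⊆ (P \ {p₀}) ∪ (A \ J p₀)` has at most
`(a - 1) + (|A| - (s - 1))` points, and `|T ∩ D p₀| ≤ s`: the sum is `a + |A|`. -/
def CO1Stmt : Prop :=
  ∀ (U : Type u) (P A B X : Set U) (J : U → Set U) (p₀ : U) (s a : ℕ), 1 ≤ s →
    Disjoint P A → Disjoint P B → Disjoint A B → X = P ∪ (A ∪ B) → P.encard = (a : ℕ∞) → p₀ ∈ P →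
    (∀ p ∈ P, J p ⊆ A ∧ (J p).encard + 1 ≤ s) → (J p₀).encard + 1 = s →
    IsAligned X (avoid X P (fun p => X \ insert p (J p ∪ B))) ∧
    helly X (avoid X P (fun p => X \ insert p (J p ∪ B))) s = A.encard + a

/-- **CO2** (150 lines). The sum of the two sides.

PROOF. `helly_le` (with `empty_mem_alignedSum`, `avoid_aligned`): let `T ⊆ X₁ ∪ X₂` be finite with an
empty core. By `core_sum_avoid_iff`: for `p ∈ P`, `p ∉ X₂`, so `|T ∩ D p| ≤ s` with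
`D p = {p} ∪ J p ∪ B` (`(T ∩ X₁) \ (X₁ \ D p) = T ∩ D p`); likewise for `p ∈ P'`,
`|T ∩ D' p| ≤ s`, `D' p = {p} ∪ J' p ∪ A`. Let `x = |T ∩ A|`, `y = |T ∩ B|`, `e = |T ∩ P| ≤ a`,
`e' = |T ∩ P'| ≤ a`. Summing over `p ∈ P`: `|T ∩ D p| = [p ∈ T] + |T ∩ J p| + y`, and
`∑_p |T ∩ J p| = ∑_{t ∈ T ∩ A} #{p : t ∈ J p} ≥ k x`, so `e + k x + a y ≤ a s`; likewise
`e' + k' y + a x ≤ a s`. By hypothesis `|T| = x + y + e + e' ≤ b`. (Use finsets: `P`, `P'` are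
finite, `T` is finite.) -/
def CO2Stmt : Prop :=
  ∀ (U : Type u) (P P' A B X₁ X₂ : Set U) (J J' : U → Set U) (s a k k' b : ℕ), 1 ≤ s →
    Disjoint P P' → Disjoint P A → Disjoint P B → Disjoint P' A → Disjoint P' B → Disjoint A B →
    X₁ = P ∪ (A ∪ B) → X₂ = P' ∪ (B ∪ A) → P.encard = (a : ℕ∞) → P'.encard = (a : ℕ∞) →
    (∀ p ∈ P, J p ⊆ A) → (∀ p ∈ P', J' p ⊆ B) →
    (∀ t ∈ A, (k : ℕ∞) ≤ {p | p ∈ P ∧ t ∈ J p}.encard) →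
    (∀ t ∈ B, (k' : ℕ∞) ≤ {p | p ∈ P' ∧ t ∈ J' p}.encard) →
    (∀ x y e e' : ℕ, e ≤ a → e' ≤ a → e + k * x + a * y ≤ a * s → e' + k' * y + a * x ≤ a * s →
      x + y + e + e' ≤ b) →
    helly (X₁ ∪ X₂) (alignedSum X₁ (avoid X₁ P (fun p => X₁ \ insert p (J p ∪ B)))
      X₂ (avoid X₂ P' (fun p => X₂ \ insert p (J' p ∪ A)))) s ≤ (b : ℕ∞)

/-- **CON** (120 lines, uses CO1, CO2). The value.

PROOF. Points: `Helper18_Helly.Pt`; `P = Pt.w '' {j | j < a}`, `P' = Pt.q '' {j | j < a}`,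
`A = sA N`, `B = sF 0 N'` (with `encard_sA`, `encard_sF`), `J (Pt.w j) = Pt.a '' I j`,
`J' (Pt.q j) = Pt.f 0 '' I' j` (`∅` elsewhere), `p₀ = Pt.w 0`, `Pt.q 0`. CO1 gives
`h(X₁) = N + a`, and, with `A` and `B` exchanged, `h(X₂) = N' + a`. CO2 gives `h(sum) ≤ b`, so
`h(sum)` is a natural number `v ≤ b`. -/
def CONStmt : Prop :=
  ∀ (s a k k' b : ℕ) (N N' : ℕ∞) (I I' : ℕ → Finset ℕ), 1 ≤ s → 1 ≤ a →
    (∀ j, j < a → ∀ t ∈ I j, (t : ℕ∞) < N) → (∀ j, j < a → (I j).card + 1 ≤ s) →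
    (I 0).card + 1 = s →
    (∀ t : ℕ, (t : ℕ∞) < N → k ≤ ((Finset.range a).filter (fun j => t ∈ I j)).card) →
    (∀ j, j < a → ∀ t ∈ I' j, (t : ℕ∞) < N') → (∀ j, j < a → (I' j).card + 1 ≤ s) →
    (I' 0).card + 1 = s →
    (∀ t : ℕ, (t : ℕ∞) < N' → k' ≤ ((Finset.range a).filter (fun j => t ∈ I' j)).card) →
    (∀ x y e e' : ℕ, e ≤ a → e' ≤ a → e + k * x + a * y ≤ a * s → e' + k' * y + a * x ≤ a * s →
      x + y + e + e' ≤ b) →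
    ∃ v : ℕ, v ≤ b ∧ IsValue.{u} s (N + a) (N' + a) (v : ℕ∞)

/-- **GUB** (50 lines). Linear programming duality.

PROOF. Over the reals let `D = a² - k k' > 0`, `y₁ = (a - k') / D`, `y₂ = (a - k) / D`, both in
`[0, 1]` (`a - k' ≤ D` since `k ≤ a - 1`: `D ≥ a² - (a - 1) k' = a (a - k') + k' ≥ a - k'`). Then
`y₁ k + y₂ a = 1`, `y₁ a + y₂ k' = 1`, so
`x + y + e + e' = y₁ (k x + a y) + y₂ (a x + k' y) + e + e' ≤ y₁ (a s - e) + y₂ (a s - e') + e + e'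
 = a s (y₁ + y₂) + (1 - y₁) e + (1 - y₂) e' ≤ a s (y₁ + y₂) + (1 - y₁) a + (1 - y₂) a
 = a (s - 1)(y₁ + y₂) + 2 a`, and `a (y₁ + y₂) = fr (k / a) (k' / a)`. -/
def GUBStmt : Prop :=
  ∀ (s a k k' x y e e' : ℕ), 1 ≤ s → k < a → k' < a → e ≤ a → e' ≤ a →
    e + k * x + a * y ≤ a * s → e' + k' * y + a * x ≤ a * s →
    ((x : ℝ) + y + e + e') ≤ ((s : ℝ) - 1) * fr ((k : ℝ) / a) ((k' : ℝ) / a) + 2 * a

/-- **ANA** (90 lines).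

PROOF. (1) On `[0, 1)²`, `fr` is decreasing in each variable with slope at least `-1`: for
`0 ≤ p ≤ p' < 1`, `0 ≤ w < 1`,
`0 ≤ fr p w - fr p' w = (p' - p)(1 - w)² / ((1 - p w)(1 - p' w)) ≤ p' - p`, and `fr` is symmetric.
(2) Let `u = (s - 1) / s`, `r_i = ratio s n_i ∈ [0, 1)`, `τ_i = u r_i` (so `τ_i = (s - 1) / M` if
`n_i = M`, `0` if `n_i = ⊤`), `κ₁ = k / a`, `κ₂ = k' / a`. The hypothesis gives
`τ_i ≤ κ_i + 1 / a`. By (1) (cases `κ_i ≥ τ_i` or not) `fr κ₁ κ₂ ≤ fr τ₁ κ₂ + 1 / a ≤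
fr τ₁ τ₂ + 2 / a`.
(3) `(s - 1) fr τ₁ τ₂ = s u fr (u r₁) (u r₂) ≤ s fr r₁ r₂ = lead s n₁ n₂`: cross multiplying, with
`S = r₁ + r₂`, `P = r₁ r₂`, the difference of the numerators is
`(2 - S)(1 - u² P) - u (2 - u S)(1 - P) = (1 - u) (2 - S (1 + u) + 2 u P)` and
`2 - S (1 + u) + 2 u P = (1 - u)(2 - S) + 2 u (1 - r₁)(1 - r₂) ≥ 0`. And
`s fr r₁ r₂ = s (1 + (1 - r₁)(1 - r₂) / (1 - r₁ r₂))`. -/
def ANAStmt : Prop :=
  ∀ (s a k k' : ℕ) (n₁ n₂ : ℕ∞), 1 ≤ s → k < a → k' < a → (s : ℕ∞) < n₁ → (s : ℕ∞) < n₂ →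
    (∀ M : ℕ, n₁ = M → a * (s - 1) ≤ (k + 1) * M) → (∀ M : ℕ, n₂ = M → a * (s - 1) ≤ (k' + 1) * M) →
    ((s : ℝ) - 1) * fr ((k : ℝ) / a) ((k' : ℝ) / a) ≤ lead s n₁ n₂ + 2 * ((s : ℝ) - 1) / a

/-- **UPB** (120 lines, uses DES, CON, GUB, ANA, BAS). The upper bound.

PROOF. `lead ≥ s` by BAS (`θ ≥ 0`).
(1) If `min n₁ n₂ ≤ s + 4 √s` (so it is a natural number `m`): `value_min`
(Helper18_Helly/Examples.lean), `v = m ≤ s + 4 √s`.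
(2) Otherwise both `n_i > s + 4 √s`. `s = 1`: `value_two_mul`, `v = 2 ≤ 1 + 4`.
(3) `s ≥ 2`: choose `a ≥ 1` with `a² ≤ (s - 1) + a` and `s - 1 ≤ a² + a` (the least `a` with
`s - 1 ≤ a² + a`: then `s - 1 > (a - 1)² + (a - 1) = a² - a`, also true for `a = 1`; note `a ≥ 1`
because `s - 1 ≥ 1`). Then
`|(s - 1) / a - a| ≤ 1` and `((s - 1) / a + a)² ≤ 1 + 4 (s - 1) ≤ 4 s`, so
`(s - 1) / a + a ≤ 2 √s`; also `a ≤ 2 √s`. Put `q = s - 1`, `N_i = n_i - a`: `n_i = N_i + a`,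
`q < N_i`. DES gives `k_i < a`, `I_i`, with `a q ≤ (k_i + 1) M` if `N_i = M`, so
`a q ≤ (k_i + 1) M'` if `n_i = M'` (`M' ≥ M`). Let `b = ⌊lead + 4 √s⌋₊`. For `x y e e'` as in CON,
GUB and ANA give `x + y + e + e' ≤ lead + 2 (s - 1) / a + 2 a ≤ lead + 4 √s`, so `≤ b`
(`Nat.le_floor`). CON gives `v ≤ b`. -/
def UPBStmt : Prop :=
  ∀ (s : ℕ) (n₁ n₂ : ℕ∞), 1 ≤ s → (s : ℕ∞) ≤ n₁ → (s : ℕ∞) ≤ n₂ →
    ∃ v : ℕ, IsValue.{u} s n₁ n₂ (v : ℕ∞) ∧ (v : ℝ) ≤ lead s n₁ n₂ + 4 * √(s : ℝ)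

/-- **SHP** (30 lines). The error term `√s` cannot be avoided.

PROOF. `q = ⌈2 √s⌉ ≥ 2 √s`, `m = s + q`; by `theta_coe` `θ = q² / (m² - s²) = q / (2 s + q) ≤
q / (2 s)`, so `lead ≤ s + q / 2` and `s + q - 1 - lead ≥ q / 2 - 1 ≥ √s - 1`. -/
def SHPStmt : Prop :=
  ∀ (s m : ℕ), 1 ≤ s → m = s + ⌈2 * √(s : ℝ)⌉₊ →
    lead s (m : ℕ∞) (m : ℕ∞) + √(s : ℝ) - 1 ≤ ((m - 1 : ℕ) : ℝ)

/-- **FIN** (leader, uses LOA, UPB, SHP). -/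
def FINStmt : Prop :=
  ∀ (s : ℕ), 1 ≤ s →
    (∀ n₁ n₂ : ℕ∞, (s : ℕ∞) ≤ n₁ → (s : ℕ∞) ≤ n₂ →
      ∃ v : ℕ, IsLeast {n | IsValue.{u} s n₁ n₂ n} (v : ℕ∞) ∧
        |(v : ℝ) - lead s n₁ n₂| ≤ 4 * √(s : ℝ)) ∧
    (∃ m : ℕ, s ≤ m ∧ ∀ v : ℕ, IsLeast {n | IsValue.{u} s m m n} (v : ℕ∞) →
      lead s m m + √(s : ℝ) - 1 ≤ (v : ℝ))

end Pool.Agent.SHA
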