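import Pool.Agent.SHA.Stmts

/-!
# Squad SHA, part B: logarithmic error in the proportional regime (MP_65fb70_co)

THEOREM. Let `s ≥ 2`, `n₁, n₂ ∈ ℕ ∪ {∞}`, `n₁, n₂ > s`, `v` the least `s`-Helly number of the
aligned sum, `L = lead s n₁ n₂`, `θ = theta s n₁ n₂ > 0`, `x_i = (n_i - s + 1)/(s - 1)`. Then
`L - 23 - 10/θ² ≤ v ≤ L + 2 + cost(n₁) + cost(n₂)`, `cost(n) = x + 1/x + 3 ⌊log₂ s⌋ + 6` for finite
`n` and `1` for `n = ∞`; and `v ≤ L + 2 a` if `a s / n_i` is an integer `≥ 2` for every finite `n_i`.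
So `v = L + O(log s)` for `(1 + ε) s ≤ n_i ≤ s/ε` or `n_i = ∞`, and `v = L + O(1)` for fixed
rational ratios.

Idea of the upper bound: exact systems (`Sys`), closed under `ρ ↦ ρ + 1`, `ρ ↦ ρ/(ρ-1)` and
`ρ ↦ (ρ + k + 1)/2`, approximate every real number within `2^(-n)` with `O(n)` blocks.
-/

set_option autoImplicit false

namespace Pool.Agent.SHA

open Pool.Agent.Helper18_Helly

universe u

/-- An exact system with `a` blocks and parameter `ρ`: a 0/1 matrix `R` (rows = types of points,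
columns = blocks), masses `m ≥ 0` on the rows such that every column has load `1`, weights `y ≥ 0`
on the columns such that every row has weight `1`, total weight `ρ`. -/
def Sys (a : ℕ) (ρ : ℝ) : Prop :=
  ∃ (ι κ : Type) (_ : Fintype ι) (_ : Fintype κ) (R : ι → κ → ℝ) (m : ι → ℝ) (y : κ → ℝ),
    Fintype.card κ = a ∧ (∀ i j, R i j = 0 ∨ R i j = 1) ∧ (∀ i, 0 ≤ m i) ∧ (∀ j, 0 ≤ y j) ∧
    (∀ j, ∑ i, m i * R i j = 1) ∧ (∀ i, ∑ j, R i j * y j = 1) ∧ ∑ j, y j = ρ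

/-- The total mass of an exact system is its total weight. -/
theorem total_mass {ι κ : Type} [Fintype ι] [Fintype κ] {R : ι → κ → ℝ} {m : ι → ℝ} {y : κ → ℝ}
    (h1 : ∀ j, ∑ i, m i * R i j = 1) (h2 : ∀ i, ∑ j, R i j * y j = 1) : ∑ i, m i = ∑ j, y j := by
  have e1 : ∑ i, m i = ∑ i, ∑ j, m i * R i j * y j := by
    refine Finset.sum_congr rfl fun i _ => ?_
    have : ∑ j, m i * R i j * y j = m i * ∑ j, R i j * y j := by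
      rw [Finset.mul_sum]
      exact Finset.sum_congr rfl fun j _ => by ring
    rw [this, h2 i, mul_one]
  rw [e1, Finset.sum_comm]
  refine Finset.sum_congr rfl fun j _ => ?_
  rw [← Finset.sum_mul, h1 j, one_mul]

theorem sys_one : Sys 1 1 :=
  ⟨Unit, Unit, inferInstance, inferInstance, fun _ _ => 1, fun _ => 1, fun _ => 1, by simp, by simp,
    by simp, by simp, by simp, by simp, by simp⟩

/-- The number of blocks used for `n`. -/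
noncomputable def cost (s : ℕ) (n : ℕ∞) : ℝ :=
  if n = ⊤ then 1 else
    ((n.toNat : ℝ) - s + 1) / ((s : ℝ) - 1) + ((s : ℝ) - 1) / ((n.toNat : ℝ) - s + 1) +
      3 * (Nat.log 2 s : ℝ) + 6

/-- **B_SYU** (30 lines).

PROOF. Rows `Option ι`, columns `Option κ`: the new row and the new column meet in a `1`, the rest of
them is `0`; mass `1`, weight `1`. -/
def SYUStmt : Prop := ∀ (a : ℕ) (ρ : ℝ), Sys a ρ → Sys (a + 1) (ρ + 1)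

/-- **B_SYC** (30 lines).

PROOF. Complement: `R' = 1 - R`, `m' = m / (ρ - 1)`, `y' = y / (ρ - 1)`. Column: `∑ m_i (1 - R_ij) =
ρ - 1` by `total_mass`; row: `∑ (1 - R_ij) y_j = ρ - 1`. Total weight `ρ / (ρ - 1)`. -/
def SYCStmt : Prop := ∀ (a : ℕ) (ρ : ℝ), 1 < ρ → Sys a ρ → Sys a (ρ / (ρ - 1))

/-- **B_SYH** (90 lines).

PROOF. Columns `κ ⊕ (Unit ⊕ Fin k)`: old ones, one column `z`, columns `v_1..v_k`. Put
`p = (ρ + 1 - k)/2`, `q = (ρ + k - 1)/2`, `r = (1 + k - ρ)/2`, all `≥ 0` (`q ≥ 0` as `k ≥ 1`,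
`ρ > 0`). Rows: (i) for every old row `i` the row `i ∪ {z}`, mass `m_i p / ρ`; (ii) for every `i` and
`l < k` the row `i ∪ {v_l}`, mass `m_i q / (ρ k)`; (iii) for `l < k` the row `{z, v_l}`, mass `r / k`.
Weights: `y_j / 2` on the old columns, `1/2` on `z` and `v_l`: all rows have weight `1`.
Loads: old column `(p + q) / ρ = 1`; `z`: `p + r = 1` (`∑ m = ρ`, `total_mass`); `v_l`:
`(q + r) / k = 1`. Total weight `(ρ + 1 + k) / 2`; number of columns `a + 1 + k`. -/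
def SYHStmt : Prop :=
  ∀ (a k : ℕ) (ρ : ℝ), 1 ≤ k → 0 < ρ → (k : ℝ) - 1 ≤ ρ → ρ ≤ k + 1 → Sys a ρ →
    Sys (a + k + 1) ((ρ + k + 1) / 2)

/-- **B_APX** (120 lines, uses SYU, SYC, SYH).

PROOF. Induction on `n` for all `x ∈ [1, 2]`. `n = 0`: `z = 2` (`Sys 3 3`), `z = 1` (`Sys 2 2`), from
`sys_one` and SYU. Step `n + 1`:
(a) `x ≥ 3/2`: `w = 2 x - 2 ∈ [1, 2]`; for the approximation `z_w` of `w` take `z = 1 + z_w / 2`: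
SYH with `k = 2`, `ρ = z_w + 1 ∈ [1, 3]` gives `Sys (a + 3) ((z_w + 4) / 2)`, `(z_w + 4)/2 = z + 1`.
`z - x = (z_w - w) / 2`.
(b) `x < 3/2`: `w = x / (2 - x) ∈ [1, 3)`, so `x = 2 w / (1 + w)`. If `w ≤ 2` let `z_w` be the
approximation of `w`; if `w > 2` let `z_w = 1 + z_{w-1}` (SYU, one more block). So `1 ≤ z_w ≤ 3`.
Take `z = 2 z_w / (1 + z_w)`: SYC gives `Sys a (1 + 1/z_w)`, SYH with `k = 1`
(`1 + 1/z_w ≤ 2`) gives `Sys (a + 2) (1 + (1 + 1/z_w)/2)`, SYC gives `Sys (a + 2) (1 + z)` since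
`((1 + 1/z_w)/2)⁻¹ = 2 z_w / (1 + z_w)`. And
`z - x = 2 (z_w - w) / ((1 + z_w)(1 + w))`, in absolute value at most `|z_w - w| / 2`, with the sign
of `z_w - w`. At most `3` more blocks in each step. Upper and lower approximations go the same way
(all maps are increasing). -/
def APXStmt : Prop :=
  ∀ (n : ℕ) (x : ℝ), 1 ≤ x → x ≤ 2 →
    (∃ (a : ℕ) (z : ℝ), a ≤ 3 * n + 3 ∧ Sys a (z + 1) ∧ x ≤ z ∧ z ≤ 2 ∧ z ≤ x + (1 / 2) ^ n) ∧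
    (∃ (a : ℕ) (z : ℝ), a ≤ 3 * n + 3 ∧ Sys a (z + 1) ∧ 1 ≤ z ∧ z ≤ x ∧ x ≤ z + (1 / 2) ^ n)

/-- **B_APG** (70 lines, uses SYU, SYC, APX).

PROOF. `x ≥ 1`: `j = ⌊x⌋₊ - 1`, `x - j ∈ [1, 2)`; upper approximation `z₀` of `x - j`, `z = z₀ + j`
(SYU `j` times), `a ≤ 3 n + 3 + j`. `x < 1`: `u = 1/x > 1`, `j = ⌊u⌋₊ - 1`, lower approximation `z₀`
of `u - j`, `z_u = z₀ + j ∈ [u - 2^(-n), u]`, `z_u ≥ 1`, and `z = 1/z_u` by SYC: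
`(z_u + 1)/z_u = 1 + 1/z_u`; `0 ≤ z - x = (u - z_u)/(u z_u) ≤ 2^(-n)`. -/
def APGStmt : Prop :=
  ∀ (n : ℕ) (x : ℝ), 0 < x →
    ∃ (a : ℕ) (z : ℝ), (a : ℝ) ≤ x + 1 / x + 3 * n + 3 ∧ Sys a (z + 1) ∧ x ≤ z ∧
      z ≤ x + (1 / 2) ^ n

/-- **B_DSG** (130 lines, uses LD1). From a system to a design.

PROOF. `a ≥ 1` since `ρ > 0`. Enumerate the columns: `κ ≃ Fin a`. Let `K ≥ 1` be an integer with
`q m_i ≤ K` for all rows. Apply LD1 (Stmts.lean) to `U = ι × Fin K`, `F = univ`,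
`x (i, l) = q m_i / K`, `Q` = image of `j ↦ O_j = {(i, l) : R i j = 1}` (so `|Q| ≤ a`); the loads are
`q ∑ m_i R_ij = q` and the total is `q ρ` (`total_mass`): there is `T` with `|T ∩ O_j| ≤ q` and
`|T| ≥ q ρ - a ≥ N`. Choose `T' ⊆ T` with `N` points, number them by `range N`, and let
`I j = {t < N : point t ∈ O_j}` (`∅` for `j ≥ a`), `y j` the weight of column `j`: for every `t`
the weights of the blocks containing it sum to `∑_j R_ij y_j = 1`. Finally enlarge `I 0` to exactly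
`q` elements of `range N` (`q ≤ N`): the last sums only increase. (LD1 is universe polymorphic:
use `LD1Stmt.{0}`.) -/
def DSGStmt : Prop :=
  ∀ (a q N : ℕ) (ρ : ℝ), 1 ≤ q → q ≤ N → Sys a ρ → (N : ℝ) + a ≤ q * ρ →
    ∃ (I : ℕ → Finset ℕ) (y : ℕ → ℝ), 1 ≤ a ∧ (∀ j, j < a → ∀ t ∈ I j, t < N) ∧
      (∀ j, j < a → (I j).card ≤ q) ∧ (I 0).card = q ∧ (∀ j, 0 ≤ y j) ∧
      ∑ j ∈ Finset.range a, y j = ρ ∧
      (∀ t, t < N → 1 ≤ ∑ j ∈ (Finset.range a).filter (fun j => t ∈ I j), y j)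

open Classical in
/-- **B_CW2** (130 lines; model: Helper53_SHA/CO2.lean). Weighted bound for the sum.

PROOF. `helly_le`: let `T ⊆ X₁ ∪ X₂` be finite with an empty core. As in CO2 (core_sum_avoid_iff):
`|T ∩ D p| ≤ s` for `p ∈ P`, `D p = {p} ∪ J p ∪ B`, and `|T ∩ D' p| ≤ s` for `p ∈ P'`,
`D' p = {p} ∪ J' p ∪ A`. For every `t ∈ T`:
`1 ≤ ∑_{p ∈ P, t ∈ D p} y p + ∑_{p ∈ P', t ∈ D' p} y' p + [t ∈ P] (1 - y t) + [t ∈ P'] (1 - y' t)`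
(for `t ∈ A` all `D' p` contain `t`, for `t ∈ B` all `D p`). Sum over `t ∈ T` and exchange:
`|T| ≤ ∑_{p ∈ P} y p |T ∩ D p| + ∑_{p ∈ P'} y' p |T ∩ D' p| + ∑_{p ∈ P} (1 - y p) +
∑_{p ∈ P'} (1 - y' p) ≤ s (Y + Y') + (|P| - Y) + (|P'| - Y') = (s - 1)(Y + Y') + |P| + |P'| < b + 1`. -/
def CW2Stmt : Prop :=
  ∀ (U : Type u) (P P' : Finset U) (A B X₁ X₂ : Set U) (J J' : U → Set U) (y y' : U → ℝ) (s b : ℕ),
    1 ≤ s → Disjoint (P : Set U) (P' : Set U) → Disjoint (P : Set U) A → Disjoint (P : Set U) B →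
    Disjoint (P' : Set U) A → Disjoint (P' : Set U) B → Disjoint A B →
    X₁ = (P : Set U) ∪ (A ∪ B) → X₂ = (P' : Set U) ∪ (B ∪ A) →
    (∀ p ∈ P, J p ⊆ A) → (∀ p ∈ P', J' p ⊆ B) →
    (∀ p ∈ P, 0 ≤ y p ∧ y p ≤ 1) → (∀ p ∈ P', 0 ≤ y' p ∧ y' p ≤ 1) →
    (∀ t ∈ A, 1 ≤ ∑ p ∈ P.filter (fun p => t ∈ J p), y p + ∑ p ∈ P', y' p) →
    (∀ t ∈ B, 1 ≤ ∑ p ∈ P'.filter (fun p => t ∈ J' p), y' p + ∑ p ∈ P, y p) →
    ((s : ℝ) - 1) * (∑ p ∈ P, y p + ∑ p ∈ P', y' p) + P.card + P'.card < b + 1 →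
    helly (X₁ ∪ X₂) (alignedSum X₁ (avoid X₁ P (fun p => X₁ \ insert p (J p ∪ B)))
      X₂ (avoid X₂ P' (fun p => X₂ \ insert p (J' p ∪ A)))) s ≤ (b : ℕ∞)

/-- **B_CWV** (120 lines, uses CO1, CW2; model: Helper70_SHA/CONV.lean). The value.

PROOF. As in CON: `Helper18_Helly.Pt`, `P = image Pt.w (range a)`, `P' = image Pt.q (range a')`,
`A = sA N`, `B = sF 0 N'`, `J (Pt.w j) = Pt.a '' I j`, `J' (Pt.q j) = Pt.f 0 '' I' j`, weights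
`y (Pt.w j) = y j`, `y' (Pt.q j) = y' j` (`0` elsewhere). CO1 on both sides, CW2 for the sum. -/
def CWVStmt : Prop :=
  ∀ (s a a' b : ℕ) (N N' : ℕ∞) (I I' : ℕ → Finset ℕ) (y y' : ℕ → ℝ), 1 ≤ s → 1 ≤ a → 1 ≤ a' →
    (∀ j, j < a → ∀ t ∈ I j, (t : ℕ∞) < N) → (∀ j, j < a → (I j).card + 1 ≤ s) →
    (I 0).card + 1 = s →
    (∀ j, j < a' → ∀ t ∈ I' j, (t : ℕ∞) < N') → (∀ j, j < a' → (I' j).card + 1 ≤ s) →
    (I' 0).card + 1 = s →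
    (∀ j, j < a → 0 ≤ y j ∧ y j ≤ 1) → (∀ j, j < a' → 0 ≤ y' j ∧ y' j ≤ 1) →
    (∀ t : ℕ, (t : ℕ∞) < N → 1 ≤ ∑ j ∈ (Finset.range a).filter (fun j => t ∈ I j), y j +
      ∑ j ∈ Finset.range a', y' j) →
    (∀ t : ℕ, (t : ℕ∞) < N' → 1 ≤ ∑ j ∈ (Finset.range a').filter (fun j => t ∈ I' j), y' j +
      ∑ j ∈ Finset.range a, y j) →
    ((s : ℝ) - 1) * (∑ j ∈ Finset.range a, y j + ∑ j ∈ Finset.range a', y' j) + a + a' < b + 1 →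
    ∃ v : ℕ, v ≤ b ∧ IsValue.{u} s (N + a) (N' + a') (v : ℕ∞)

/-- **B_SID** (110 lines, uses APG, DSG). One side.

PROOF. `n = ⊤`: `a = 1`, `N = ⊤`, `r = 0`, `I j = range (s - 1)`, `y = 1`. `n = M` finite, `M > s`:
`x = M/(s - 1) - 1 = (M - s + 1)/(s - 1) > 0`, `m = Nat.log 2 s + 1` (`2^m > s`, so
`(1/2)^m ≤ 1/(s - 1)`). APG gives `a, z`, put `ρ = z + 1`: `M/(s-1) ≤ ρ ≤ M/(s-1) + 1/(s-1)`, so
`ρ > 1`, `a ≤ x + 1/x + 3 m + 3 = cost`, `a ≥ 1` (`Sys 0 ρ` would give `ρ = 0`). `r = 1/ρ`: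
`(s-1) ((s-1)/M - 1/ρ) = (s-1)(ρ - M/(s-1)) ((s-1)/(M ρ)) ≤ 1`. If `M < s + a` the first
alternative holds. Otherwise `N = M - a ≥ s`, `q = s - 1`: DSG applies (`N + a = M ≤ q ρ`) and gives
`I`, `y`; divide `y` by `ρ`. -/
def SIDStmt : Prop :=
  ∀ (s : ℕ) (n : ℕ∞), 2 ≤ s → (s : ℕ∞) < n →
    ∃ (a : ℕ) (N : ℕ∞) (r : ℝ) (I : ℕ → Finset ℕ) (y : ℕ → ℝ),
      1 ≤ a ∧ (a : ℝ) ≤ cost s n ∧ 0 ≤ r ∧ r < 1 ∧
      ((s : ℝ) - 1) * (((s : ℝ) - 1) / s * ratio s n - r) ≤ 1 ∧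
      (n < ((s + a : ℕ) : ℕ∞) ∨
        (N + a = n ∧ (∀ j, j < a → ∀ t ∈ I j, (t : ℕ∞) < N) ∧ (∀ j, j < a → (I j).card + 1 ≤ s) ∧
          (I 0).card + 1 = s ∧ (∀ j, j < a → 0 ≤ y j) ∧ ∑ j ∈ Finset.range a, y j = 1 ∧
          ∀ t : ℕ, (t : ℕ∞) < N → r ≤ ∑ j ∈ (Finset.range a).filter (fun j => t ∈ I j), y j))

/-- **B_ANB** (60 lines; model: Helper92_SHA/ANA.lean).

PROOF. As ANA with `r_i` in place of `κ_i`: let `u = (s - 1)/s`, `τ_i = u * ratio s n_i ∈ [0, 1)`.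
`fr` is decreasing in each variable with slope at least `-1` on `[0, 1)`, so
`(s - 1) fr r₁ r₂ ≤ (s - 1) fr τ₁ r₂ + e₁ ≤ (s - 1) fr τ₁ τ₂ + e₁ + e₂` (cases `r_i ≥ τ_i` or not),
and `(s - 1) fr τ₁ τ₂ ≤ lead s n₁ n₂` as in ANA (3). -/
def ANBStmt : Prop :=
  ∀ (s : ℕ) (n₁ n₂ : ℕ∞) (r₁ r₂ e₁ e₂ : ℝ), 1 ≤ s → (s : ℕ∞) < n₁ → (s : ℕ∞) < n₂ →
    0 ≤ r₁ → r₁ < 1 → 0 ≤ r₂ → r₂ < 1 → 0 ≤ e₁ → 0 ≤ e₂ →
    ((s : ℝ) - 1) * (((s : ℝ) - 1) / s * ratio s n₁ - r₁) ≤ e₁ →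
    ((s : ℝ) - 1) * (((s : ℝ) - 1) / s * ratio s n₂ - r₂) ≤ e₂ →
    ((s : ℝ) - 1) * fr r₁ r₂ ≤ lead s n₁ n₂ + e₁ + e₂

/-- **B_UPL** (110 lines, uses SID, CWV, ANB, BAS).

PROOF. SID for `n₁` and `n₂`. If `n₁ < s + a₁` (finite) `value_min` gives `v = min n₁ n₂ ≤ s + a₁ ≤
lead + cost s n₁` (`lead ≥ s` by BAS, `cost ≥ 0`: it is `≥ a`); likewise for `n₂`. Otherwise put
`α = (1 - r₂)/(1 - r₁ r₂)`, `β = (1 - r₁)/(1 - r₁ r₂)`, both in `[0, 1]`, `α r₁ + β = 1`,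
`β r₂ + α = 1`, `α + β = fr r₁ r₂`. CWV with weights `α y₁ j`, `β y₂ j` (each `≤ 1` since the `y` are
nonnegative with sum `1`) and `b = ⌊(s - 1) fr r₁ r₂ + a₁ + a₂⌋₊` (`Nat.lt_floor_add_one`), then
ANB with `e₁ = e₂ = 1`: `v ≤ b ≤ lead + 2 + a₁ + a₂`. -/
def UPLStmt : Prop :=
  ∀ (s : ℕ) (n₁ n₂ : ℕ∞), 2 ≤ s → (s : ℕ∞) < n₁ → (s : ℕ∞) < n₂ →
    ∃ v : ℕ, IsValue.{u} s n₁ n₂ (v : ℕ∞) ∧ (v : ℝ) ≤ lead s n₁ n₂ + 2 + cost s n₁ + cost s n₂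

/-- **B_UPR** (110 lines, uses DES, CON, GUB, ANB, BAS; model: Helper81_SHA/UPB.lean). Rational
ratios.

PROOF. If `n₁ < s + a` or `n₂ < s + a`: `value_min`, `v = min n₁ n₂ ≤ s + a ≤ lead + 2 a`. Otherwise
`N_i = n_i - a ≥ s > q = s - 1`; DES gives `k_i < a`, `I_i`. If `n_i = M` then `N_i = M - a` and
`(s - 1) M > s (M - a)` (as `M < a s`), and `c M = a s` for an integer `c`, so
`a (s - 1) > c (M - a)` (multiply by `M`: `a (s-1) M > a s (M - a) = c M (M - a)`); with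
`a (s - 1) ≤ (k_i + 1)(M - a)` this gives `c ≤ k_i`, so `k_i / a ≥ c / a = s / M = ratio s n_i`.
(`n_i = ⊤`: `ratio = 0`.) CON, GUB (for `b = ⌊(s - 1) fr (k₁/a) (k₂/a) + 2 a⌋₊`), ANB with
`e₁ = e₂ = 0` (`r_i = k_i / a ≥ ratio s n_i ≥ ((s-1)/s) ratio s n_i`): `v ≤ lead + 2 a`. -/
def UPRStmt : Prop :=
  ∀ (s a : ℕ) (n₁ n₂ : ℕ∞), 2 ≤ s → 1 ≤ a → (s : ℕ∞) < n₁ → (s : ℕ∞) < n₂ →
    (∀ M : ℕ, n₁ = M → M < a * s ∧ ∃ c : ℕ, c * M = a * s) →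
    (∀ M : ℕ, n₂ = M → M < a * s ∧ ∃ c : ℕ, c * M = a * s) →
    ∃ v : ℕ, IsValue.{u} s n₁ n₂ (v : ℕ∞) ∧ (v : ℝ) ≤ lead s n₁ n₂ + 2 * a

open Classical in
/-- **B_LOB** (80 lines, uses LO2, TRV, NM1, NM2, BAS; model: Helper99_SHA/LOC.lean).

PROOF. `N_i = |S_i| > s`, so `s² < N₁ N₂` and `θ > 0` (`theta_coe`); `θ ≤ 1`, `lead ≤ N₁` (BAS).
TRV: second alternative or `k = |Q| = 0`: `T = S₁`. First alternative: fine if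
`lead - 4 - 10/θ² ≤ k + s - 1`. Otherwise `k - 1 < s θ`, so `k ≤ s`; let `y = k^(1/3) ≥ 1`, `y³ ≤ s`,
`2 y² ≤ s - 1` (NM2). LO2 loses `(1 + θ)(1 + 2 y²) - θ y³ + y⁴ exp (- y - 1) ≤
2 + 4 y² - θ y³ + 1.73` (NM1), and `4 y² - θ y³ ≤ (256/27)/θ² ≤ 10/θ²` because for `w = θ y ≥ 0`
`4 w² - w³ ≤ 256/27`, that is `(w - 8/3)² (w + 4/3) ≥ 0`. -/
def LOBStmt : Prop :=
  ∀ (U : Type u) (X : Set U) (s : ℕ) (S₁ S₂ : Finset U) (Q : Finset (Set U)),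
    34 ≤ s → s < S₁.card → s < S₂.card → (S₁ : Set U) ⊆ X → (S₂ : Set U) ⊆ X → Priv X Q →
    (∀ O ∈ Q, (S₁.filter (fun f => f ∈ O)).card ≤ s ∨ (S₂.filter (fun f => f ∈ O)).card ≤ s) →
    ∃ T : Finset U, (T : Set U) ⊆ X ∧ (∀ O ∈ Q, (T.filter (fun f => f ∈ O)).card ≤ s) ∧
      lead s (S₁.card : ℕ∞) (S₂.card : ℕ∞) - 4 -
        10 / theta s (S₁.card : ℕ∞) (S₂.card : ℕ∞) ^ 2 ≤ (T.card : ℝ)

/-- **B_LIC** (60 lines; model: Helper15_SHA/LIM.lean).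

PROOF. `theta s N₁ N₂ → theta s n₁ n₂` along `N_i = n_i` (finite) or `N_i = N → ∞` (`n_i = ⊤`);
`φ` is continuous at the limit: `le_of_tendsto`. -/
def LICStmt : Prop :=
  ∀ (s : ℕ) (n₁ n₂ : ℕ∞) (φ : ℝ → ℝ) (c : ℝ), 1 ≤ s → (s : ℕ∞) < n₁ → (s : ℕ∞) < n₂ →
    ContinuousAt φ (theta s n₁ n₂) →
    (∀ N₁ N₂ : ℕ, s < N₁ → s < N₂ → (N₁ : ℕ∞) ≤ n₁ → (N₂ : ℕ∞) ≤ n₂ →
      φ (theta s (N₁ : ℕ∞) (N₂ : ℕ∞)) ≤ c) →
    φ (theta s n₁ n₂) ≤ c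

/-- **B_THP** (20 lines). `θ > 0`.

PROOF. `ratio s n_i < 1`, so numerator and denominator are positive. -/
def THPStmt : Prop :=
  ∀ (s : ℕ) (n₁ n₂ : ℕ∞), 1 ≤ s → (s : ℕ∞) < n₁ → (s : ℕ∞) < n₂ → 0 < theta s n₁ n₂

/-- **B_LOE** (80 lines, uses LOB, LIC, LOA, THP; model: Helper22_SHA/LOA.lean).

PROOF. `s ≤ 33`: LOA and `4 √33 < 23`, `10/θ² ≥ 0`. `s ≥ 34`: as in LOA (Helper22_SHA/LOA.lean) for
`s < N_i ≤ n_i` with `N = ⌈lead s N₁ N₂ - 4 - 10/θ(N₁,N₂)²⌉₊` one gets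
`lead s N₁ N₂ - 4 - 10/θ(N₁,N₂)² ≤ v`; then LIC with `φ t = s (1 + t) - 4 - 10/t²`, continuous at
`θ > 0` (THP). -/
def LOEStmt : Prop :=
  ∀ (s : ℕ) (n₁ n₂ : ℕ∞) (v : ℕ), 2 ≤ s → (s : ℕ∞) < n₁ → (s : ℕ∞) < n₂ →
    IsValue.{u} s n₁ n₂ (v : ℕ∞) → lead s n₁ n₂ - 23 - 10 / theta s n₁ n₂ ^ 2 ≤ v

end Pool.Agent.SHA
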